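import Pool.Agent.H126.DJ.Asm
import Pool.Agent.H126.DJ.CHA
import Pool.Agent.H126.DJ.CHB
import Pool.Agent.H126.DJ.CONS
import Pool.Agent.H126.DJ.ORD
import Pool.Agent.H126.DJ.QA
import Pool.Agent.H126.DJ.UNI
import Pool.Agent.H126.DJ.CMB
import Pool.Agent.H126.DJ.PL
import Pool.Agent.H126.DJ.ISO
import Pool.Agent.H126.DJ.QB
import Pool.Agent.H126.DJ.QC
import Pool.Agent.H126.DJ.CMA
import Pool.Agent.H126.DJ.FA
import Pool.Agent.H126.DJ.FC
import Pool.Agent.H126.DJ.FB
import Pool.Agent.H126.DJ.PA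
import Pool.Agent.H126.DJ.OB
import Pool.Agent.H126.DJ.OA

set_option autoImplicit false

namespace Pool.Agent.Results.MP_2da123_co.DimFive

open Pool.Agent.H126.DJ

/-- For every finite graph `G`: `G + K_n` is the graph of a 5-polytope for some `n ≥ 1`, so
`d(G) ≤ 5`; `d(G) ≤ 4` if the complement of `G` is a pseudoforest; `d(G) ≤ 3` if `G` has at most two
vertices; and if `G` has at least three vertices then `d(G) ≥ 3`, with equality exactly when `G` is a
path or a cycle together with pairwise non-crossing chords. -/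
theorem result {V : Type} [Fintype V] (G : SimpleGraph V) :
    (∃ n ≥ 1, IsPolytopal 5 (joinComplete G n)) ∧ dJoin G ≤ 5 ∧
    (CoPseudo G → dJoin G ≤ 4) ∧
    (Fintype.card V ≤ 2 → dJoin G ≤ 3) ∧
    (3 ≤ Fintype.card V → 3 ≤ dJoin G ∧ (dJoin G = 3 ↔ PathLike G ∨ OuterHam G)) :=
  main chara charb iso assoc order consec nocross univ lowd o1 o2 o3
    ⟨comb0, comb1, comb2, comb3, comb4⟩ qv qvv qvw0 qvw1 qww qn place para fv fvv fvw fww fn fs V G

end Pool.Agent.Results.MP_2da123_co.DimFive
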